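import Pool.Agent.H598.FI.Cyc

set_option autoImplicit false

/-!
# Descent of finitely many data from an algebraic extension of `F_p` to a finite field
-/

namespace Pool.Agent.H598.AC

open Finset Polynomial WithZero IsDedekindDomain Module Pool.Agent.H598.WA Pool.Agent.H598.FI

/-- Finitely many polynomials are defined over a large finite subfield. -/
lemma descent_poly {κ : Type*} [Field κ] (p : ℕ) [Fact p.Prime] [Algebra (ZMod p) κ]
    [Algebra.IsAlgebraic (ZMod p) κ] [Infinite κ] (T : Finset κ[X]) (B : ℕ) :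
    ∃ L : IntermediateField (ZMod p) κ, Finite L ∧ B ≤ Nat.card L ∧ ringChar L = p ∧
      ∀ f ∈ T, ∃ g : L[X], g.map (algebraMap L κ) = f := by
  classical
  obtain ⟨D, hD⟩ := Infinite.exists_subset_card_eq κ B
  set C : Finset κ := T.biUnion (fun f => f.coeffs) ∪ D with hC
  set L : IntermediateField (ZMod p) κ := IntermediateField.adjoin (ZMod p) (C : Set κ) with hL
  have hfd : FiniteDimensional (ZMod p) L :=
    IntermediateField.finiteDimensional_adjoin
      (fun x _ => Algebra.IsIntegral.isIntegral (R := ZMod p) x)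
  have hfin : Finite L := Module.finite_of_finite (ZMod p)
  have hCL : ∀ c ∈ C, c ∈ L := fun c hc =>
    IntermediateField.subset_adjoin (ZMod p) (C : Set κ) (by exact_mod_cast hc)
  refine ⟨L, hfin, ?_, ?_, ?_⟩
  · have hinj : Function.Injective (fun x : D => (⟨x.1, hCL x.1 (by
        rw [hC]; exact Finset.mem_union_right _ x.2)⟩ : L)) := by
      intro x y hxy
      exact Subtype.ext (congrArg (fun z : L => (z : κ)) hxy)
    have h1 := Nat.card_le_card_of_injective _ hinj
    have h2 : Nat.card D = B := by rw [← hD]; simp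
    rw [h2] at h1
    exact h1
  · have h1 : CharP L p := charP_of_injective_algebraMap (algebraMap (ZMod p) L).injective p
    exact ringChar.eq L p
  · intro f hf
    rw [← Polynomial.mem_lifts, Polynomial.lifts_iff_coeff_lifts]
    intro n
    by_cases h0 : f.coeff n = 0
    · exact ⟨0, by rw [h0, map_zero]⟩
    · refine ⟨⟨f.coeff n, hCL _ ?_⟩, rfl⟩
      rw [hC, Finset.mem_union, Finset.mem_biUnion]
      exact Or.inl ⟨f, hf, Polynomial.coeff_mem_coeffs h0⟩

/-- A rational function is defined over `F` if its numerator and denominator are. -/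
lemma descent_rat {F κ : Type*} [Field F] [Field κ] [Algebra F κ] (f : RatFunc κ)
    (hn : ∃ g : F[X], g.map (algebraMap F κ) = f.num)
    (hd : ∃ g : F[X], g.map (algebraMap F κ) = f.denom) : ∃ g : RatFunc F, FI.em F κ g = f := by
  obtain ⟨n, hn⟩ := hn
  obtain ⟨d, hd⟩ := hd
  refine ⟨algebraMap F[X] (RatFunc F) n / algebraMap F[X] (RatFunc F) d, ?_⟩
  rw [map_div₀]
  have h1 := algE_poly F κ n
  have h2 := algE_poly F κ d
  rw [FI.em, h1, h2, hn, hd, RatFunc.num_div_denom]

/-- A polynomial with coefficients in `κ(t)` is defined over `F(t)` if its coefficients are. -/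
lemma descent_mv {F κ : Type*} [Field F] [Field κ] [Algebra F κ] {m : ℕ}
    (a : MvPolynomial (Fin m) (RatFunc κ))
    (h : ∀ d ∈ a.support, ∃ g : RatFunc F, FI.em F κ g = a.coeff d) :
    ∃ a' : MvPolynomial (Fin m) (RatFunc F), MvPolynomial.map (FI.em F κ) a' = a := by
  classical
  have h1 : a ∈ Set.range (MvPolynomial.map (σ := Fin m) (FI.em F κ)) := by
    rw [MvPolynomial.mem_range_map_iff_coeffs_subset]
    intro c hc
    rw [SetLike.mem_coe, MvPolynomial.mem_coeffs_iff] at hc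
    obtain ⟨d, hd, rfl⟩ := hc
    obtain ⟨g, hg⟩ := h d hd
    exact ⟨g, hg⟩
  obtain ⟨a', ha'⟩ := h1
  exact ⟨a', ha'⟩

/-- Balls are a basis of the neighbourhoods. -/
lemma ball_sub {L : Type*} [Field L] [Valued L (WithZero (Multiplicative ℤ))] {m s : ℕ}
    {P : (Fin m → L) × (Fin s → L)} {N : Set ((Fin m → L) × (Fin s → L))} (hN : N ∈ nhds P) :
    ∃ n : ℕ, ∀ q : (Fin m → L) × (Fin s → L),
      (∀ j, (Valued.v (q.1 j - P.1 j) : WithZero (Multiplicative ℤ)) ≤ exp (-(n : ℤ))) →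
      (∀ i, (Valued.v (q.2 i - P.2 i) : WithZero (Multiplicative ℤ)) ≤ exp (-(n : ℤ))) →
      q ∈ N := by
  rw [nhds_prod_eq, Filter.mem_prod_iff] at hN
  obtain ⟨W1, hW1, W2, hW2, hW⟩ := hN
  obtain ⟨δ, hδ0, hδ⟩ := pi_radius hW1
  obtain ⟨ε, hε0, hε⟩ := pi_radius hW2
  obtain ⟨f, hf⟩ : ∃ f : WithZero (Multiplicative ℤ) → ℕ, ∀ x, f x = (-log x).toNat := ⟨_, fun _ => rfl⟩
  obtain ⟨A, hA⟩ : ∃ A, A = ∑ j, f (δ j) := ⟨_, rfl⟩
  obtain ⟨B, hB⟩ : ∃ B, B = ∑ i, f (ε i) := ⟨_, rfl⟩
  refine ⟨A + B + 1, fun q h1 h2 => hW ⟨hδ _ fun j => ?_, hε _ fun i => ?_⟩⟩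
  · refine lt_of_le_of_lt (h1 j) ?_
    have h3 : f (δ j) ≤ ∑ j, f (δ j) :=
      Finset.single_le_sum (f := fun j => f (δ j)) (fun _ _ => Nat.zero_le _) (Finset.mem_univ j)
    rw [hf, ← hA] at h3
    rw [← exp_log (hδ0 j), exp_lt_exp]
    push_cast
    omega
  · refine lt_of_le_of_lt (h2 i) ?_
    have h3 : f (ε i) ≤ ∑ i, f (ε i) :=
      Finset.single_le_sum (f := fun i => f (ε i)) (fun _ _ => Nat.zero_le _) (Finset.mem_univ i)
    rw [hf, ← hB] at h3
    rw [← exp_log (hε0 i), exp_lt_exp]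
    push_cast
    omega

/-- The place of `F(t)` under a place of `κ(t)`. -/
lemma under {F κ : Type*} [Field F] [Field κ] [Algebra F κ] (v : HeightOneSpectrum κ[X])
    (h : ∃ g : F[X], g.map (algebraMap F κ) = gn v) :
    ∃ w : HeightOneSpectrum F[X], (gn w).map (algebraMap F κ) ∈ v.asIdeal := by
  obtain ⟨g, hg⟩ := h
  let P : Ideal F[X] := v.asIdeal.comap (Polynomial.mapRingHom (algebraMap F κ))
  have hP : P.IsPrime := Ideal.comap_isPrime _ _
  have hgP : g ∈ P := by
    show (Polynomial.mapRingHom (algebraMap F κ)) g ∈ v.asIdeal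
    rw [Polynomial.coe_mapRingHom, hg, gn_span v]
    exact Ideal.mem_span_singleton_self _
  have hP0 : P ≠ ⊥ := by
    intro h0
    rw [h0, Ideal.mem_bot] at hgP
    rw [hgP, Polynomial.map_zero] at hg
    exact (gn_irr v).ne_zero hg.symm
  let w : HeightOneSpectrum F[X] := ⟨P, hP, hP0⟩
  refine ⟨w, ?_⟩
  have h1 : gn w ∈ w.asIdeal := by
    rw [gn_span w]
    exact Ideal.mem_span_singleton_self _
  exact h1

/-- Only one of the given places lies over a place of `F(t)`. -/
lemma under_unique {F κ : Type*} [Field F] [Field κ] [Algebra F κ] (v v' : HeightOneSpectrum κ[X])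
    (h : ∃ g : F[X], g.map (algebraMap F κ) = gn v) (w : HeightOneSpectrum F[X])
    (hw : (gn w).map (algebraMap F κ) ∈ v.asIdeal)
    (hw' : (gn w).map (algebraMap F κ) ∈ v'.asIdeal) : v = v' := by
  obtain ⟨g, hg⟩ := h
  -- `gn w` divides `g`
  have h1 : gn w ∣ g := by
    by_contra hcon
    have h2 : IsCoprime (gn w) g := ((gn_irr w).coprime_iff_not_dvd).2 hcon
    obtain ⟨x, y, hxy⟩ := h2.map (Polynomial.mapRingHom (algebraMap F κ))
    rw [Polynomial.coe_mapRingHom] at hxy
    have h3 : (1 : κ[X]) ∈ v.asIdeal := by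
      rw [← hxy]
      refine v.asIdeal.add_mem (v.asIdeal.mul_mem_left _ hw) (v.asIdeal.mul_mem_left _ ?_)
      rw [hg, gn_span v]
      exact Ideal.mem_span_singleton_self _
    exact v.isPrime.ne_top ((Ideal.eq_top_iff_one _).2 h3)
  obtain ⟨c, hc⟩ := h1
  have h4 : gn v ∈ v'.asIdeal := by
    rw [← hg, hc, Polynomial.map_mul]
    exact v'.asIdeal.mul_mem_right _ hw'
  have h5 : v.asIdeal ≤ v'.asIdeal := by
    rw [gn_span v, Ideal.span_singleton_le_iff_mem]
    exact h4
  have h6 : v.asIdeal = v'.asIdeal :=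
    (v.isMaximal).eq_of_le v'.isPrime.ne_top h5
  exact HeightOneSpectrum.ext h6

end Pool.Agent.H598.AC
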