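import Pool.Agent.H598.AC.Desc

set_option autoImplicit false

/-!
# Weak approximation over `κ(t)`, `κ` an infinite algebraic extension of `F_p`
-/

namespace Pool.Agent.H598.AC

open Finset Polynomial WithZero IsDedekindDomain Module Pool.Agent.H598.FQ Pool.Agent.H598.WA
open Pool.Agent.H598.FI hiding em

/-- Weak approximation for families of diagonal hypersurfaces over `κ(t)`. -/
theorem ac_explicit {κ : Type*} [Field κ] [DecidableEq (RatFunc κ)] (p : ℕ) [Fact p.Prime]
    [Algebra (ZMod p) κ] [Algebra.IsAlgebraic (ZMod p) κ] [Infinite κ] {k : ℕ}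
    (hk : 2 ≤ k) (hp : k < p) {m s : ℕ} (hs : 2 * k + 1 ≤ s)
    (a : Fin s → MvPolynomial (Fin m) (RatFunc κ)) (S : Finset (HeightOneSpectrum κ[X]))
    (P : ∀ v : HeightOneSpectrum κ[X], (Fin m → v.adicCompletion (RatFunc κ)) ×
      (Fin s → v.adicCompletion (RatFunc κ)))
    (ha : ∀ v, ∀ i, MvPolynomial.aeval (P v).1 (a i) ≠ 0) (hx0 : ∀ v, (P v).2 ≠ 0)
    (hx : ∀ v, ∑ i, MvPolynomial.aeval (P v).1 (a i) * (P v).2 i ^ k = 0)
    (Pi : (Fin m → RatFunc.CompletionAtInfty κ) × (Fin s → RatFunc.CompletionAtInfty κ))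
    (hai : ∀ i, MvPolynomial.aeval Pi.1 (a i) ≠ 0) (hxi0 : Pi.2 ≠ 0)
    (hxi : ∑ i, MvPolynomial.aeval Pi.1 (a i) * Pi.2 i ^ k = 0)
    (N : ∀ v : HeightOneSpectrum κ[X], Set ((Fin m → v.adicCompletion (RatFunc κ)) ×
      (Fin s → v.adicCompletion (RatFunc κ))))
    (hN : ∀ v, N v ∈ nhds (P v))
    (Ni : Set ((Fin m → RatFunc.CompletionAtInfty κ) × (Fin s → RatFunc.CompletionAtInfty κ)))
    (hNi : Ni ∈ nhds Pi) :
    ∃ (c : Fin m → RatFunc κ) (z : Fin s → RatFunc κ), (∀ i, MvPolynomial.aeval c (a i) ≠ 0) ∧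
      z ≠ 0 ∧ ∑ i, MvPolynomial.aeval c (a i) * z i ^ k = 0 ∧
      (∀ v ∈ S, ((fun j => algebraMap (RatFunc κ) (v.adicCompletion (RatFunc κ)) (c j)),
        (fun i => algebraMap (RatFunc κ) (v.adicCompletion (RatFunc κ)) (z i))) ∈ N v) ∧
      ((fun j => algebraMap (RatFunc κ) (RatFunc.CompletionAtInfty κ) (c j)),
        (fun i => algebraMap (RatFunc κ) (RatFunc.CompletionAtInfty κ) (z i))) ∈ Ni := by
  classical
  have hk1 : 1 ≤ k := by omega
  -- the precision
  choose nv hnv using fun v => ball_sub (hN v)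
  obtain ⟨ni, hni⟩ := ball_sub hNi
  obtain ⟨n, hn⟩ : ∃ n, n = ∑ v ∈ S, nv v + ni := ⟨_, rfl⟩
  have hnS : ∀ v ∈ S, nv v ≤ n := by
    intro v hv
    have := Finset.single_le_sum (f := nv) (fun _ _ => Nat.zero_le _) hv
    omega
  -- approximate points over `κ(t)`
  have h1 : ∀ v : HeightOneSpectrum κ[X], ∃ (M : ℕ) (u : Fin m → RatFunc κ)
      (x : Fin s → RatFunc κ) (l : Fin s), 1 ≤ M ∧
      ((∀ j, (Valued.v (algebraMap (RatFunc κ) (v.adicCompletion (RatFunc κ)) (u j) - (P v).1 j) :
        WithZero (Multiplicative ℤ)) < exp (-(n : ℤ))) ∧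
      ∀ i, (Valued.v (algebraMap (RatFunc κ) (v.adicCompletion (RatFunc κ)) (x i) - (P v).2 i) :
        WithZero (Multiplicative ℤ)) < exp (-(n : ℤ))) ∧
      (∀ i, MvPolynomial.aeval u (a i) ≠ 0) ∧ x l ≠ 0 ∧
      v.valuation (RatFunc κ) (∑ i, MvPolynomial.aeval u (a i) * x i ^ k) ≤
        exp (-(M : ℤ)) * v.valuation (RatFunc κ) (MvPolynomial.aeval u (a l) * x l ^ k) ∧
      exp (-(M : ℤ)) * v.valuation (RatFunc κ) (x l) ≤ exp (-(n : ℤ)) := by
    intro v
    obtain ⟨M, u, x, l, b1, b2, b3, b4, b5, b6⟩ := klevel (dense_fin v) (nt_fin v) a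
        (P v).1 (P v).2 (ha v) (hx0 v) (hx v) _
        (ball_nhds (nt_fin v) (P v) (δ := exp (-(n : ℤ))) exp_ne_zero) n
    rw [val_fin, val_fin] at b5
    rw [val_fin] at b6
    exact ⟨M, u, x, l, b1, b2, b3, b4, b5, b6⟩
  choose M u x l b1 b2 b3 b4 b5 b6 using h1
  obtain ⟨Mi, ui, xi, li, c1, c2, c3, c4, c5, c6⟩ := klevel dense_inf nt_inf a
    Pi.1 Pi.2 hai hxi0 hxi _ (ball_nhds nt_inf Pi (δ := exp (-(n : ℤ))) exp_ne_zero) n
  rw [val_inf, val_inf] at c5
  rw [val_inf] at c6
  -- descent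
  obtain ⟨nd, hnd⟩ : ∃ nd : RatFunc κ → Finset κ[X], ∀ f, nd f = {f.num, f.denom} :=
    ⟨_, fun _ => rfl⟩
  obtain ⟨T, hT⟩ : ∃ T : Finset κ[X], T = S.biUnion (fun v =>
      {gn v} ∪ Finset.univ.biUnion (fun j => nd (u v j)) ∪
        Finset.univ.biUnion (fun i => nd (x v i))) ∪
      Finset.univ.biUnion (fun j => nd (ui j)) ∪ Finset.univ.biUnion (fun i => nd (xi i)) ∪
      Finset.univ.biUnion (fun i => (a i).support.biUnion (fun d => nd ((a i).coeff d))) :=
    ⟨_, rfl⟩
  obtain ⟨F, hFfin, hFcard, hFchar, hFT⟩ := descent_poly p T ((8 * k) ^ (k * 2 ^ k))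
  let _ : Fintype F := Fintype.ofFinite F
  rw [Nat.card_eq_fintype_card] at hFcard
  have hbig : Big (Fintype.card F) k := big_of_le hk hFcard
  have hch : ∀ i : ℕ, 1 ≤ i → i ≤ k → ((i : ℕ) : F) ≠ 0 := by
    intro i hi hik h0
    have h3 : ringChar F ∣ i := ringChar.dvd h0
    rw [hFchar] at h3
    have h4 := Nat.le_of_dvd (by omega) h3
    omega
  have hkF : ((k : ℕ) : F) ≠ 0 := hch k hk1 le_rfl
  have hrat : ∀ f : RatFunc κ, (∀ g ∈ nd f, g ∈ T) → ∃ g : RatFunc F, FI.em F κ g = f := by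
    intro f hf
    refine descent_rat f (hFT _ (hf _ ?_)) (hFT _ (hf _ ?_))
    · rw [hnd]; exact Finset.mem_insert_self _ _
    · rw [hnd]; exact Finset.mem_insert_of_mem (Finset.mem_singleton_self _)
  have hu : ∀ v ∈ S, ∀ j, ∃ g : RatFunc F, FI.em F κ g = u v j := by
    intro v hv j
    refine hrat _ (fun g hg => ?_)
    rw [hT]
    simp only [Finset.mem_union, Finset.mem_biUnion]
    exact Or.inl (Or.inl (Or.inl ⟨v, hv, Or.inl (Or.inr ⟨j, Finset.mem_univ j, hg⟩)⟩))
  have hxx : ∀ v ∈ S, ∀ i, ∃ g : RatFunc F, FI.em F κ g = x v i := by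
    intro v hv i
    refine hrat _ (fun g hg => ?_)
    rw [hT]
    simp only [Finset.mem_union, Finset.mem_biUnion]
    exact Or.inl (Or.inl (Or.inl ⟨v, hv, Or.inr ⟨i, Finset.mem_univ i, hg⟩⟩))
  have hui : ∀ j, ∃ g : RatFunc F, FI.em F κ g = ui j := by
    intro j
    refine hrat _ (fun g hg => ?_)
    rw [hT]
    simp only [Finset.mem_union, Finset.mem_biUnion]
    exact Or.inl (Or.inl (Or.inr ⟨j, Finset.mem_univ j, hg⟩))
  have hxxi : ∀ i, ∃ g : RatFunc F, FI.em F κ g = xi i := by
    intro i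
    refine hrat _ (fun g hg => ?_)
    rw [hT]
    simp only [Finset.mem_union, Finset.mem_biUnion]
    exact Or.inl (Or.inr ⟨i, Finset.mem_univ i, hg⟩)
  have haa : ∀ i, ∃ a' : MvPolynomial (Fin m) (RatFunc F), MvPolynomial.map (FI.em F κ) a' = a i := by
    intro i
    refine descent_mv _ (fun d hd => hrat _ (fun g hg => ?_))
    rw [hT]
    simp only [Finset.mem_union, Finset.mem_biUnion]
    exact Or.inr ⟨i, Finset.mem_univ i, d, hd, hg⟩
  have hgn : ∀ v ∈ S, ∃ g : F[X], g.map (algebraMap F κ) = gn v := by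
    intro v hv
    apply hFT
    rw [hT]
    simp only [Finset.mem_union, Finset.mem_biUnion]
    exact Or.inl (Or.inl (Or.inl ⟨v, hv, Or.inl (Or.inl (Finset.mem_singleton_self _))⟩))
  choose a' ha' using haa
  choose ui' hui' using hui
  choose xi' hxi' using hxxi
  have hu2 : ∀ v, ∃ u' : Fin m → RatFunc F, v ∈ S → ∀ j, FI.em F κ (u' j) = u v j := by
    intro v
    by_cases hv : v ∈ S
    · choose u' hu' using hu v hv
      exact ⟨u', fun _ => hu'⟩
    · exact ⟨0, fun h => absurd h hv⟩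
  have hx2 : ∀ v, ∃ x' : Fin s → RatFunc F, v ∈ S → ∀ j, FI.em F κ (x' j) = x v j := by
    intro v
    by_cases hv : v ∈ S
    · choose x' hx' using hxx v hv
      exact ⟨x', fun _ => hx'⟩
    · exact ⟨0, fun h => absurd h hv⟩
  choose u' hu' using hu2
  choose x' hx' using hx2
  -- comparison of the values
  have hval : ∀ (y : Fin m → RatFunc F) (Y : Fin m → RatFunc κ), (∀ j, FI.em F κ (y j) = Y j) →
      ∀ i, FI.em F κ (MvPolynomial.aeval y (a' i)) = MvPolynomial.aeval Y (a i) := by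
    intro y Y hyY i
    have hY : (fun j => FI.em F κ (y j)) = Y := funext hyY
    rw [← aeval_em, ha', hY]
  have hsum : ∀ (y : Fin m → RatFunc F) (Y : Fin m → RatFunc κ) (t : Fin s → RatFunc F)
      (T : Fin s → RatFunc κ), (∀ j, FI.em F κ (y j) = Y j) → (∀ i, FI.em F κ (t i) = T i) →
      FI.em F κ (∑ i, MvPolynomial.aeval y (a' i) * t i ^ k) =
        ∑ i, MvPolynomial.aeval Y (a i) * T i ^ k := by
    intro y Y t T hyY htT
    rw [map_sum]
    exact Finset.sum_congr rfl (fun i _ => by rw [map_mul, map_pow, hval y Y hyY, htT])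
  -- a base point and a global point over it
  obtain ⟨z0, hz00, hz0⟩ := Pool.Agent.H598.DG.diag_ratFunc hk hch hbig hs
    (fun i => MvPolynomial.aeval ui' (a' i))
  have hu0 : ∀ i, MvPolynomial.aeval ui' (a' i) ≠ 0 := by
    intro i h0
    have h3 := hval ui' ui hui' i
    rw [h0, map_zero] at h3
    exact c3 i h3.symm
  -- the local data over `F(t)`
  have h2 : ∀ w : HeightOneSpectrum F[X], ∃ (Q : (Fin m → w.adicCompletion (RatFunc F)) ×
      (Fin s → w.adicCompletion (RatFunc F)))
      (N' : Set ((Fin m → w.adicCompletion (RatFunc F)) ×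
        (Fin s → w.adicCompletion (RatFunc F)))),
      (∀ i, MvPolynomial.aeval Q.1 (a' i) ≠ 0) ∧ Q.2 ≠ 0 ∧
      ∑ i, MvPolynomial.aeval Q.1 (a' i) * Q.2 i ^ k = 0 ∧ N' ∈ nhds Q ∧
      ∀ v ∈ S, (gn w).map (algebraMap F κ) ∈ v.asIdeal →
        ∀ (c : Fin m → RatFunc F) (z : Fin s → RatFunc F),
          ((fun j => algebraMap (RatFunc F) (w.adicCompletion (RatFunc F)) (c j)),
            (fun i => algebraMap (RatFunc F) (w.adicCompletion (RatFunc F)) (z i))) ∈ N' →
          (∀ j, w.valuation (RatFunc F) (c j - u' v j) ≤ exp (-(n : ℤ))) ∧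
          ∀ i, w.valuation (RatFunc F) (z i - x' v i) ≤ exp (-(n : ℤ)) := by
    intro w
    by_cases hw : ∃ v ∈ S, (gn w).map (algebraMap F κ) ∈ v.asIdeal
    · obtain ⟨v, hv, hvw⟩ := hw
      have huv := hu' v hv
      have hxv := hx' v hv
      have e0 : ∀ i, MvPolynomial.aeval (u' v) (a' i) ≠ 0 := by
        intro i h0
        have h3 := hval (u' v) (u v) huv i
        rw [h0, map_zero] at h3
        exact b3 v i h3.symm
      have e1 : x' v (l v) ≠ 0 := by
        intro h0
        have h3 := hxv (l v)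
        rw [h0, map_zero] at h3
        exact b4 v h3.symm
      obtain ⟨y, N', d1, d2, d3, d4, d5⟩ := local_exact (nt_fin w) hk1 (kv_fin hkF w) a'
        (u' v) (x' v) e0 (l v) e1 (M := M v) (n := n) (b1 v)
        (by
          have g1 := val_ext F κ w v hvw (∑ i, MvPolynomial.aeval (u' v) (a' i) * x' v i ^ k)
          have g2 := val_ext F κ w v hvw
            (MvPolynomial.aeval (u' v) (a' (l v)) * x' v (l v) ^ k)
          have g3 := hsum (u' v) (u v) (x' v) (x v) huv hxv
          have g4 : FI.em F κ (MvPolynomial.aeval (u' v) (a' (l v)) * x' v (l v) ^ k) =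
              MvPolynomial.aeval (u v) (a (l v)) * x v (l v) ^ k := by
            rw [map_mul, map_pow, hval _ _ huv, hxv]
          rw [FI.em] at g3 g4
          rw [val_fin, val_fin, ← g1, ← g2, g3, g4]
          exact b5 v)
        (by
          have g1 := val_ext F κ w v hvw (x' v (l v))
          have g2 := hxv (l v)
          rw [FI.em] at g2
          rw [val_fin, ← g1, g2]
          exact b6 v)
      refine ⟨((fun j => algebraMap (RatFunc F) (w.adicCompletion (RatFunc F)) (u' v j)), y), N',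
        d1, d2, d3, d4, ?_⟩
      intro v' hv' hv'w c z hcz
      have hvv' : v = v' := under_unique v v' (hgn v hv) w hvw hv'w
      subst hvv'
      obtain ⟨e1, e2⟩ := d5 c z hcz
      refine ⟨fun j => ?_, fun i => ?_⟩
      · rw [← val_fin]
        exact e1 j
      · rw [← val_fin]
        exact e2 i
    · refine ⟨((fun j => algebraMap (RatFunc F) (w.adicCompletion (RatFunc F)) (ui' j)),
        (fun i => algebraMap (RatFunc F) (w.adicCompletion (RatFunc F)) (z0 i))), Set.univ,
        ?_, ?_, ?_, Filter.univ_mem, fun v hv hvw => absurd ⟨v, hv, hvw⟩ hw⟩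
      · intro i h0
        have h0' : MvPolynomial.aeval (fun j => algebraMap (RatFunc F)
          (w.adicCompletion (RatFunc F)) (ui' j)) (a' i) = 0 := h0
        rw [aeval_alg] at h0'
        exact hu0 i ((_root_.map_eq_zero _).1 h0')
      · intro h0
        apply hz00
        funext i
        have h3 : algebraMap (RatFunc F) (w.adicCompletion (RatFunc F)) (z0 i) = 0 :=
          congrFun h0 i
        exact (_root_.map_eq_zero _).1 h3
      · have h4 := congrArg (algebraMap (RatFunc F) (w.adicCompletion (RatFunc F))) hz0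
        rw [map_zero, map_sum] at h4
        refine Eq.trans (Finset.sum_congr rfl (fun i _ => ?_)) h4
        show MvPolynomial.aeval (fun j => algebraMap (RatFunc F)
          (w.adicCompletion (RatFunc F)) (ui' j)) (a' i) *
            algebraMap (RatFunc F) (w.adicCompletion (RatFunc F)) (z0 i) ^ k = _
        rw [aeval_alg, map_mul, map_pow]
  choose Q N' g1 g2 g3 g4 g5 using h2
  have hcomp := complete_inf (F := F)
  obtain ⟨yi, Ni', d1, d2, d3, d4, d5⟩ := local_exact (L := RatFunc.CompletionAtInfty F) nt_inf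
    hk1 (kv_inf hkF) a' ui' xi' hu0 li
    (by
      intro h0
      have h3 := hxi' li
      rw [h0, map_zero] at h3
      exact c4 h3.symm) (M := Mi) (n := n) c1
    (by
      have g1 := inf_ext F κ (∑ i, MvPolynomial.aeval ui' (a' i) * xi' i ^ k)
      have g2 := inf_ext F κ (MvPolynomial.aeval ui' (a' li) * xi' li ^ k)
      have g3 := hsum ui' ui xi' xi hui' hxi'
      have g4 : FI.em F κ (MvPolynomial.aeval ui' (a' li) * xi' li ^ k) =
          MvPolynomial.aeval ui (a li) * xi li ^ k := by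
        rw [map_mul, map_pow, hval _ _ hui', hxi']
      rw [FI.em] at g3 g4
      rw [val_inf, val_inf, ← g1, ← g2, g3, g4]
      exact c5)
    (by
      have g1 := inf_ext F κ (xi' li)
      have g2 := hxi' li
      rw [FI.em] at g2
      rw [val_inf, ← g1, g2]
      exact c6)
  -- the places of `F(t)` under the given places
  have hw1 : ∀ v : HeightOneSpectrum κ[X], ∃ w : HeightOneSpectrum F[X],
      v ∈ S → (gn w).map (algebraMap F κ) ∈ v.asIdeal := by
    intro v
    by_cases hv : v ∈ S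
    · obtain ⟨w, hw⟩ := under v (hgn v hv)
      exact ⟨w, fun _ => hw⟩
    · exact ⟨pl (Polynomial.irreducible_X (R := F)), fun h => absurd h hv⟩
  choose w hw using hw1
  obtain ⟨W, Wi, hW, hWi, hc⟩ := fib_explicit hk hch hbig hs a' (S.image w) (fun w => (Q w).1)
    (fun w => (Q w).2) g1 g2 g3 _ _ d1 d2 d3 N' g4 Ni' d4
  obtain ⟨c, hcS, hci⟩ := wa_affine (S.image w) (fun w => (Q w).1) _ W hW Wi hWi
  obtain ⟨z, hz1, hz2, hz3, hz4, hz5⟩ := hc c hcS hci
  refine ⟨fun j => FI.em F κ (c j), fun i => FI.em F κ (z i), ?_, ?_, ?_, fun v hv => ?_, ?_⟩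
  · intro i h0
    have h3 := hval c _ (fun _ => rfl) i
    rw [h0] at h3
    exact hz1 i ((_root_.map_eq_zero _).1 h3)
  · intro h0
    apply hz2
    funext i
    have h3 : FI.em F κ (z i) = 0 := congrFun h0 i
    exact (_root_.map_eq_zero _).1 h3
  · have h3 := hsum c _ z _ (fun _ => rfl) (fun _ => rfl)
    rw [hz3, map_zero] at h3
    exact h3.symm
  · obtain ⟨e1, e2⟩ := g5 (w v) v hv (hw v hv) c z (hz4 (w v) (Finset.mem_image_of_mem w hv))
    have hle : exp (-(n : ℤ)) ≤ exp (-(nv v : ℤ)) := by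
      rw [exp_le_exp]
      have := hnS v hv
      omega
    apply hnv v
    · intro j
      refine le_trans ?_ hle
      have e3 : algebraMap (RatFunc κ) (v.adicCompletion (RatFunc κ)) (FI.em F κ (c j)) -
          (P v).1 j = algebraMap (RatFunc κ) (v.adicCompletion (RatFunc κ))
            (FI.em F κ (c j - u' v j)) +
          (algebraMap (RatFunc κ) (v.adicCompletion (RatFunc κ)) (u v j) - (P v).1 j) := by
        rw [map_sub, hu' v hv, map_sub]
        ring
      show Valued.v (algebraMap (RatFunc κ) (v.adicCompletion (RatFunc κ)) (FI.em F κ (c j)) -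
        (P v).1 j) ≤ _
      rw [e3]
      refine Valuation.map_add_le _ ?_ ((b2 v).1 j).le
      have e4 := val_ext F κ (w v) v (hw v hv) (c j - u' v j)
      rw [val_fin, FI.em, e4]
      exact e1 j
    · intro i
      refine le_trans ?_ hle
      have e3 : algebraMap (RatFunc κ) (v.adicCompletion (RatFunc κ)) (FI.em F κ (z i)) -
          (P v).2 i = algebraMap (RatFunc κ) (v.adicCompletion (RatFunc κ))
            (FI.em F κ (z i - x' v i)) +
          (algebraMap (RatFunc κ) (v.adicCompletion (RatFunc κ)) (x v i) - (P v).2 i) := by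
        rw [map_sub, hx' v hv, map_sub]
        ring
      show Valued.v (algebraMap (RatFunc κ) (v.adicCompletion (RatFunc κ)) (FI.em F κ (z i)) -
        (P v).2 i) ≤ _
      rw [e3]
      refine Valuation.map_add_le _ ?_ ((b2 v).2 i).le
      have e4 := val_ext F κ (w v) v (hw v hv) (z i - x' v i)
      rw [val_fin, FI.em, e4]
      exact e2 i
  · obtain ⟨e1, e2⟩ := d5 c z hz5
    have hle : exp (-(n : ℤ)) ≤ exp (-(ni : ℤ)) := by
      rw [exp_le_exp]
      omega
    apply hni
    · intro j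
      refine le_trans ?_ hle
      have e3 : algebraMap (RatFunc κ) (RatFunc.CompletionAtInfty κ) (FI.em F κ (c j)) -
          Pi.1 j = algebraMap (RatFunc κ) (RatFunc.CompletionAtInfty κ)
            (FI.em F κ (c j - ui' j)) +
          (algebraMap (RatFunc κ) (RatFunc.CompletionAtInfty κ) (ui j) - Pi.1 j) := by
        rw [map_sub, hui', map_sub]
        ring
      show Valued.v (algebraMap (RatFunc κ) (RatFunc.CompletionAtInfty κ) (FI.em F κ (c j)) -
        Pi.1 j) ≤ _
      rw [e3]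
      refine Valuation.map_add_le _ ?_ (c2.1 j).le
      have e4 := inf_ext F κ (c j - ui' j)
      rw [val_inf, FI.em, e4, ← val_inf]
      exact e1 j
    · intro i
      refine le_trans ?_ hle
      have e3 : algebraMap (RatFunc κ) (RatFunc.CompletionAtInfty κ) (FI.em F κ (z i)) -
          Pi.2 i = algebraMap (RatFunc κ) (RatFunc.CompletionAtInfty κ)
            (FI.em F κ (z i - xi' i)) +
          (algebraMap (RatFunc κ) (RatFunc.CompletionAtInfty κ) (xi i) - Pi.2 i) := by
        rw [map_sub, hxi', map_sub]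
        ring
      show Valued.v (algebraMap (RatFunc κ) (RatFunc.CompletionAtInfty κ) (FI.em F κ (z i)) -
        Pi.2 i) ≤ _
      rw [e3]
      refine Valuation.map_add_le _ ?_ (c2.2 i).le
      have e4 := inf_ext F κ (z i - xi' i)
      rw [val_inf, FI.em, e4, ← val_inf]
      exact e2 i

end Pool.Agent.H598.AC
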