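import Pool.Agent.H598.AC.Main
import Pool.Agent.H598.FI.More

set_option autoImplicit false

/-!
# Weak approximation over `κ(t)` for sums of forms
-/

namespace Pool.Agent.H598.AC

open Finset Polynomial WithZero IsDedekindDomain Module Pool.Agent.H598.FQ Pool.Agent.H598.WA
open Pool.Agent.H598.FI hiding em

/-- Weak approximation for sums of forms in disjoint sets of variables. -/
theorem forms_ac {κ : Type*} [Field κ] [DecidableEq (RatFunc κ)] (p : ℕ) [Fact p.Prime]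
    [Algebra (ZMod p) κ] [Algebra.IsAlgebraic (ZMod p) κ] [Infinite κ] {k : ℕ}
    (hk : 2 ≤ k) (hp : k < p) {s m : ℕ} (hs : 2 * k + 1 ≤ s)
    (Φ : Fin s → MvPolynomial (Fin m) (RatFunc κ)) (hΦ : ∀ i, (Φ i).IsHomogeneous k)
    (β : Fin m → Fin s) (hβ : ∀ i, ∀ j ∈ (Φ i).vars, β j = i)
    (S : Finset (HeightOneSpectrum κ[X]))
    (y : ∀ v : HeightOneSpectrum κ[X], Fin m → v.adicCompletion (RatFunc κ))
    (ha : ∀ v, ∀ i, MvPolynomial.aeval (y v) (Φ i) ≠ 0)
    (hx : ∀ v, ∑ i, MvPolynomial.aeval (y v) (Φ i) = 0)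
    (yi : Fin m → RatFunc.CompletionAtInfty κ)
    (hai : ∀ i, MvPolynomial.aeval yi (Φ i) ≠ 0)
    (hxi : ∑ i, MvPolynomial.aeval yi (Φ i) = 0)
    (N : ∀ v : HeightOneSpectrum κ[X], Set (Fin m → v.adicCompletion (RatFunc κ)))
    (hN : ∀ v, N v ∈ nhds (y v))
    (Ni : Set (Fin m → RatFunc.CompletionAtInfty κ)) (hNi : Ni ∈ nhds yi) :
    ∃ c : Fin m → RatFunc κ, (∀ i, MvPolynomial.aeval c (Φ i) ≠ 0) ∧
      ∑ i, MvPolynomial.aeval c (Φ i) = 0 ∧
      (∀ v ∈ S, (fun j => algebraMap (RatFunc κ) (v.adicCompletion (RatFunc κ)) (c j)) ∈ N v) ∧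
      (fun j => algebraMap (RatFunc κ) (RatFunc.CompletionAtInfty κ) (c j)) ∈ Ni := by
  obtain ⟨c, z, hz1, hz0, hz, hzS, hzi⟩ := ac_explicit p hk hp hs Φ S
    (fun v => (y v, fun _ => 1)) ha
    (fun v h0 => one_ne_zero (congrFun h0 (⟨0, by omega⟩ : Fin s)))
    (fun v => by simpa using hx v)
    (yi, fun _ => 1) hai (fun h0 => one_ne_zero (congrFun h0 (⟨0, by omega⟩ : Fin s)))
    (by simpa using hxi)
    _ (fun v => nhds_blocks β (y v) (N v) (hN v)) _ (nhds_blocks β yi Ni hNi)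
  have hzne : ∀ i, z i ≠ 0 := by
    intro i h0
    apply hzi.1 i
    show algebraMap (RatFunc κ) (RatFunc.CompletionAtInfty κ) (z i) = 0
    rw [h0, map_zero]
  have hsc : ∀ i, MvPolynomial.aeval (fun j => z (β j) * c j) (Φ i) =
      z i ^ k * MvPolynomial.aeval c (Φ i) := fun i =>
    aeval_blocks β (Φ i) i (hΦ i) (hβ i) z c
  refine ⟨fun j => z (β j) * c j, fun i => ?_, ?_, fun v hv => ?_, ?_⟩
  · rw [hsc]
    exact mul_ne_zero (pow_ne_zero _ (hzne i)) (hz1 i)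
  · rw [← hz]
    exact Finset.sum_congr rfl (fun i _ => by rw [hsc, mul_comm])
  · have h1 := (hzS v hv).2
    simp only [map_mul]
    exact h1
  · have h1 := hzi.2
    simp only [map_mul]
    exact h1

end Pool.Agent.H598.AC
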